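import Pool.Agent.Work.MP_43901b_nt.N.Res
import Pool.Agent.Work.MP_43901b_nt.H.EvId
import Pool.Agent.Work.MP_43901b_nt.H.Norms
import Mathlib

/-!
# NDefs: definitions and basic facts for the number theoretic part

`sc P x = P(xX)` (scaling); `Nrm P u` (file Res) says that `‖u‖` is the Gauss norm of `P`, then
`rd (C u⁻¹ * P)` is the reduction of the normalised polynomial.
-/

namespace Pool.Agent.ZQ

open Polynomial Finset

/-- `P(xX)` -/
noncomputable def sc {L : Type*} [Field L] (P : L[X]) (x : L) : L[X] := P.comp (C x * X)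

/-- `⌈M / q^(j+1)⌉` for `M ≥ 1` -/
def Lj (q M j : ℕ) : ℕ := (M - 1) / q ^ (j + 1) + 1

/-- the reductions of the polynomials `e_i` (scale 0) -/
noncomputable def eb (q : ℕ) (κ : Type*) [CommRing κ] (i : ℕ) : κ[X] :=
  if i = 0 then 1 else -X ^ q ^ (i - 1)

/-- the largest `n` with `q n ≤ S` and `p ∤ C(S - q n + n, n)` -/
def Nn (p q S : ℕ) : ℕ :=
  Nat.findGreatest (fun n => q * n ≤ S ∧ ¬ p ∣ (S - q * n + n).choose n) S

/-- the top equation of a tuple `a :: s`, where `R'` is the polynomial of `s` -/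
def Top (q : ℕ) {K : Type*} [Field K] (D c : K) (a : ℕ) (s : List ℕ) (R R' : K[X]) : Prop :=
  Ch q D s R' ∧
    R.comp (vp q D) = bet D ^ (a + s.sum) * (R + (PP q D a * R' - C c * PP q D (a + s.sum))) ∧
    (q - 1) * R.natDegree < a + s.sum

section Nn

theorem Nn_spec {p q S : ℕ} (hp : 2 ≤ p) :
    q * Nn p q S ≤ S ∧ ¬ p ∣ (S - q * Nn p q S + Nn p q S).choose (Nn p q S) := by
  have h := Nat.findGreatest_spec (P := fun n => q * n ≤ S ∧ ¬ p ∣ (S - q * n + n).choose n)
    (n := S) (m := 0) (Nat.zero_le _) ⟨by omega, by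
      rw [Nat.choose_zero_right]
      intro h
      have := Nat.le_of_dvd one_pos h
      omega⟩
  exact h

theorem Nn_max {p q S n : ℕ} (hq : 1 ≤ q) (h1 : q * n ≤ S) (h2 : Nn p q S < n) :
    p ∣ (S - q * n + n).choose n := by
  have hn : n ≤ S := le_trans (Nat.le_mul_of_pos_left n hq) h1
  have h := Nat.findGreatest_is_greatest
    (P := fun n => q * n ≤ S ∧ ¬ p ∣ (S - q * n + n).choose n) h2 hn
  by_contra h3
  exact h ⟨h1, h3⟩

end Nn

section sc

variable {L : Type*} [Field L]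

theorem sc_add (P Q : L[X]) (x : L) : sc (P + Q) x = sc P x + sc Q x := by
  simp [sc]

theorem sc_sub (P Q : L[X]) (x : L) : sc (P - Q) x = sc P x - sc Q x := by
  simp [sc]

theorem sc_mul (P Q : L[X]) (x : L) : sc (P * Q) x = sc P x * sc Q x := by
  simp [sc]

theorem sc_C (c x : L) : sc (C c) x = C c := by
  simp [sc]

theorem sc_zero (x : L) : sc (0 : L[X]) x = 0 := by
  simp [sc]

theorem coeff_sc (P : L[X]) (x : L) (n : ℕ) : (sc P x).coeff n = x ^ n * P.coeff n := by
  rw [sc, comp_C_mul_X_coeff, mul_comm]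

theorem sc_one_arg (P : L[X]) : sc P 1 = P := by
  rw [sc, C_1, one_mul, comp_X]

theorem sc_sc (P : L[X]) (x y : L) : sc (sc P x) y = sc P (x * y) := by
  ext n
  rw [coeff_sc, coeff_sc, coeff_sc, mul_pow]
  ring

theorem sc_ne_zero {P : L[X]} (hP : P ≠ 0) {x : L} (hx : x ≠ 0) : sc P x ≠ 0 := by
  intro h
  apply hP
  ext n
  have := congrArg (fun Q => Q.coeff n) h
  simp only [coeff_sc, coeff_zero] at this
  rw [coeff_zero]
  exact (mul_eq_zero.1 this).resolve_left (pow_ne_zero _ hx)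

theorem sc_natDegree (P : L[X]) {x : L} (hx : x ≠ 0) : (sc P x).natDegree = P.natDegree := by
  rw [sc, natDegree_comp, natDegree_C_mul_X x hx, mul_one]

/-- orders of vanishing -/
theorem dvd_sc {P : L[X]} {x : L} (hx : x ≠ 0) {n : ℕ} (h : (X - C x) ^ n ∣ P) :
    (X - 1) ^ n ∣ sc P x := by
  obtain ⟨Q, rfl⟩ := h
  rw [sc, mul_comp, pow_comp, sub_comp, X_comp, C_comp]
  have h1 : (C x * X - C x : L[X]) = C x * (X - 1) := by ring
  rw [h1, mul_pow, mul_assoc]
  exact (dvd_mul_right _ _).mul_left _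

end sc

section Mono

variable {L : Type*} [NormedField L] [IsUltrametricDist L]

/-- the leading term of `R` dominates all the others at the scale `x` -/
def Mono (R : L[X]) (x : L) : Prop :=
  Nrm (sc R x) (R.leadingCoeff * x ^ R.natDegree) ∧
    rd (C (R.leadingCoeff * x ^ R.natDegree)⁻¹ * sc R x) = X ^ R.natDegree

theorem Mono.ne {R : L[X]} {x : L} (h : Mono R x) : R ≠ 0 := by
  rintro rfl
  apply h.1.ne
  rw [sc_zero]

/-- `Mono` from the coefficients -/
theorem mono_of_lt {R : L[X]} {x : L} (hx : x ≠ 0) (hR : R ≠ 0)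
    (h : ∀ n < R.natDegree, ‖R.coeff n‖ * ‖x‖ ^ n < ‖R.leadingCoeff‖ * ‖x‖ ^ R.natDegree) :
    Mono R x := by
  have hlc : R.leadingCoeff ≠ 0 := leadingCoeff_ne_zero.2 hR
  have hu : R.leadingCoeff * x ^ R.natDegree ≠ 0 := mul_ne_zero hlc (pow_ne_zero _ hx)
  have hle : ∀ n, ‖(sc R x).coeff n‖ ≤ ‖R.leadingCoeff * x ^ R.natDegree‖ := by
    intro n
    rw [coeff_sc, norm_mul, norm_mul, norm_pow, norm_pow, mul_comm]
    rcases lt_trichotomy n R.natDegree with h1 | h1 | h1
    · exact (h n h1).le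
    · rw [h1]
      rfl
    · rw [coeff_eq_zero_of_natDegree_lt h1, norm_zero, zero_mul]
      positivity
  have hN : Nrm (sc R x) (R.leadingCoeff * x ^ R.natDegree) := by
    refine nrm_iff.2 ⟨hu, hle, R.natDegree, ?_⟩
    rw [coeff_sc, mul_comm]
    rfl
  refine ⟨hN, ?_⟩
  ext n
  rw [coeff_rd, coeff_C_mul, coeff_X_pow, coeff_sc]
  rcases lt_trichotomy n R.natDegree with h1 | h1 | h1
  · rw [if_neg (by omega), rs_eq_zero_iff]
    · rw [norm_mul, norm_inv, inv_mul_lt_iff₀ (norm_pos_iff.2 hu), mul_one, norm_mul, norm_mul,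
        norm_pow, norm_pow, mul_comm]
      exact h n h1
    · have := (intP_smul_iff hu).2 hle n
      rwa [coeff_C_mul, coeff_sc] at this
  · rw [if_pos h1, h1]
    have h2 : (R.leadingCoeff * x ^ R.natDegree)⁻¹ * (x ^ R.natDegree * R.coeff R.natDegree) = 1 := by
      rw [mul_comm (x ^ R.natDegree)]
      exact inv_mul_cancel₀ hu
    rw [h2, rs_one]
  · rw [if_neg (by omega), coeff_eq_zero_of_natDegree_lt h1, mul_zero, mul_zero, rs_zero]

end Mono

end Pool.Agent.ZQ
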