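import Pool.Agent.Work.MP_43901b_nt.H.Integ
import Mathlib

/-!
# Res: the residue field and the reduction of polynomials
-/

namespace Pool.Agent.ZQ

open Polynomial Finset

/-- the valuation ring of `L` -/
noncomputable abbrev VR (L : Type*) [NormedField L] [IsUltrametricDist L] : ValuationSubring L :=
  (NormedField.valuation (K := L)).valuationSubring

/-- the residue field of `L` -/
abbrev RF (L : Type*) [NormedField L] [IsUltrametricDist L] : Type _ :=
  IsLocalRing.ResidueField (VR L)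

section Res

variable {L : Type*} [NormedField L] [IsUltrametricDist L]

theorem mem_VR {x : L} : x ∈ VR L ↔ ‖x‖ ≤ 1 := by
  rw [Valuation.mem_valuationSubring_iff]
  exact NNReal.coe_le_coe.symm

open Classical in
/-- the residue class of an element (0 if the norm is larger than 1) -/
noncomputable def rs (x : L) : RF L :=
  if h : ‖x‖ ≤ 1 then IsLocalRing.residue (VR L) ⟨x, mem_VR.2 h⟩ else 0

theorem rs_of_le {x : L} (h : ‖x‖ ≤ 1) :
    rs x = IsLocalRing.residue (VR L) ⟨x, mem_VR.2 h⟩ := by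
  rw [rs, dif_pos h]

theorem rs_eq_zero_iff {x : L} (h : ‖x‖ ≤ 1) : rs x = 0 ↔ ‖x‖ < 1 := by
  rw [rs_of_le h, IsLocalRing.residue_eq_zero_iff]
  rw [Valuation.mem_maximalIdeal_iff]
  exact NNReal.coe_lt_coe.symm

theorem rs_zero : rs (0 : L) = 0 := by
  have h : ‖(0 : L)‖ ≤ 1 := by rw [norm_zero]; exact zero_le_one
  rw [rs_eq_zero_iff h, norm_zero]
  exact zero_lt_one

theorem rs_one : rs (1 : L) = 1 := by
  have h : ‖(1 : L)‖ ≤ 1 := by rw [norm_one]
  rw [rs_of_le h]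
  exact map_one _

theorem rs_add {x y : L} (hx : ‖x‖ ≤ 1) (hy : ‖y‖ ≤ 1) : rs (x + y) = rs x + rs y := by
  have h : ‖x + y‖ ≤ 1 := (IsUltrametricDist.norm_add_le_max _ _).trans (max_le hx hy)
  rw [rs_of_le hx, rs_of_le hy, rs_of_le h, ← map_add]
  rfl

theorem rs_mul {x y : L} (hx : ‖x‖ ≤ 1) (hy : ‖y‖ ≤ 1) : rs (x * y) = rs x * rs y := by
  have h : ‖x * y‖ ≤ 1 := by
    rw [norm_mul]
    exact mul_le_one₀ hx (norm_nonneg _) hy
  rw [rs_of_le hx, rs_of_le hy, rs_of_le h, ← map_mul]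
  rfl

theorem rs_neg {x : L} (hx : ‖x‖ ≤ 1) : rs (-x) = -rs x := by
  have h : ‖-x‖ ≤ 1 := by rwa [norm_neg]
  rw [rs_of_le hx, rs_of_le h, ← map_neg]
  rfl

theorem rs_sub {x y : L} (hx : ‖x‖ ≤ 1) (hy : ‖y‖ ≤ 1) : rs (x - y) = rs x - rs y := by
  have h : ‖-y‖ ≤ 1 := by rwa [norm_neg]
  rw [sub_eq_add_neg, rs_add hx h, rs_neg hy, sub_eq_add_neg]

theorem rs_pow {x : L} (hx : ‖x‖ ≤ 1) (n : ℕ) : rs (x ^ n) = rs x ^ n := by
  induction n with
  | zero => rw [pow_zero, pow_zero, rs_one]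
  | succ n ih =>
    have h : ‖x ^ n‖ ≤ 1 := by
      rw [norm_pow]
      exact pow_le_one₀ (norm_nonneg _) hx
    rw [pow_succ, pow_succ, rs_mul h hx, ih]

theorem rs_sum {ι : Type*} (T : Finset ι) (g : ι → L) (h : ∀ i ∈ T, ‖g i‖ ≤ 1) :
    rs (∑ i ∈ T, g i) = ∑ i ∈ T, rs (g i) := by
  classical
  induction T using Finset.induction_on with
  | empty => rw [Finset.sum_empty, Finset.sum_empty, rs_zero]
  | insert a T ha ih =>
    have h1 : ∀ i ∈ T, ‖g i‖ ≤ 1 := fun i hi => h i (mem_insert_of_mem hi)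
    rw [Finset.sum_insert ha, Finset.sum_insert ha, rs_add (h a (mem_insert_self a T))
      (IsUltrametricDist.norm_sum_le_of_forall_le_of_nonneg zero_le_one h1), ih h1]

theorem rs_ne_zero {x : L} (h : ‖x‖ = 1) : rs x ≠ 0 := by
  rw [Ne, rs_eq_zero_iff h.le, h]
  exact lt_irrefl _

/-- elements congruent modulo the maximal ideal -/
theorem rs_eq_of_sub {x y : L} (hx : ‖x‖ ≤ 1) (h : ‖x - y‖ < 1) : rs x = rs y := by
  have hy : ‖y‖ ≤ 1 := by
    have : y = x - (x - y) := by ring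
    rw [this, sub_eq_add_neg]
    refine (IsUltrametricDist.norm_add_le_max _ _).trans (max_le hx ?_)
    rw [norm_neg]
    exact h.le
  have h1 := (rs_eq_zero_iff h.le).2 h
  rw [rs_sub hx hy, sub_eq_zero] at h1
  exact h1

instance charP_RF (p : ℕ) [Fact p.Prime] [CharP L p] : CharP (RF L) p := by
  rw [CharP.charP_iff_prime_eq_zero Fact.out]
  have h1 : ((p : ℕ) : VR L) = 0 := by
    apply Subtype.ext
    push_cast
    exact CharP.cast_eq_zero L p
  have h2 := congrArg (IsLocalRing.residue (VR L)) h1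
  rwa [map_natCast, map_zero] at h2

/-- the reduction of a polynomial -/
noncomputable def rd (P : L[X]) : (RF L)[X] :=
  ∑ i ∈ range (P.natDegree + 1), C (rs (P.coeff i)) * X ^ i

theorem coeff_rd (P : L[X]) (n : ℕ) : (rd P).coeff n = rs (P.coeff n) := by
  unfold rd
  rw [finsetSum_coeff]
  simp only [coeff_C_mul, coeff_X_pow, mul_ite, mul_one, mul_zero]
  rw [Finset.sum_ite_eq]
  split_ifs with h
  · rfl
  · rw [Finset.mem_range] at h
    rw [coeff_eq_zero_of_natDegree_lt (by omega), rs_zero]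

theorem rd_zero : rd (0 : L[X]) = 0 := by
  ext n
  rw [coeff_rd, coeff_zero, coeff_zero, rs_zero]

theorem rd_one : rd (1 : L[X]) = 1 := by
  ext n
  rw [coeff_rd, coeff_one, coeff_one]
  split_ifs
  · exact rs_one
  · exact rs_zero

theorem rd_X : rd (X : L[X]) = X := by
  ext n
  rw [coeff_rd, coeff_X, coeff_X]
  split_ifs
  · exact rs_one
  · exact rs_zero

theorem rd_C (c : L) : rd (C c) = C (rs c) := by
  ext n
  rw [coeff_rd, coeff_C, coeff_C]
  split_ifs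
  · rfl
  · exact rs_zero

theorem rd_add {P Q : L[X]} (hP : IntP P) (hQ : IntP Q) : rd (P + Q) = rd P + rd Q := by
  ext n
  rw [coeff_rd, coeff_add, coeff_add, coeff_rd, coeff_rd, rs_add (hP n) (hQ n)]

theorem rd_neg {P : L[X]} (hP : IntP P) : rd (-P) = -rd P := by
  ext n
  rw [coeff_rd, coeff_neg, coeff_neg, coeff_rd, rs_neg (hP n)]

theorem rd_sub {P Q : L[X]} (hP : IntP P) (hQ : IntP Q) : rd (P - Q) = rd P - rd Q := by
  ext n
  rw [coeff_rd, coeff_sub, coeff_sub, coeff_rd, coeff_rd, rs_sub (hP n) (hQ n)]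

theorem rd_mul {P Q : L[X]} (hP : IntP P) (hQ : IntP Q) : rd (P * Q) = rd P * rd Q := by
  ext n
  rw [coeff_rd, coeff_mul, coeff_mul, rs_sum]
  · refine Finset.sum_congr rfl fun x _ => ?_
    rw [coeff_rd, coeff_rd, rs_mul (hP _) (hQ _)]
  · intro x _
    rw [norm_mul]
    exact mul_le_one₀ (hP _) (norm_nonneg _) (hQ _)

theorem rd_pow {P : L[X]} (hP : IntP P) (n : ℕ) : rd (P ^ n) = rd P ^ n := by
  induction n with
  | zero => rw [pow_zero, pow_zero, rd_one]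
  | succ n ih => rw [pow_succ, pow_succ, rd_mul (intP_pow hP n) hP, ih]

theorem rd_sum {ι : Type*} (T : Finset ι) (g : ι → L[X]) (h : ∀ i ∈ T, IntP (g i)) :
    rd (∑ i ∈ T, g i) = ∑ i ∈ T, rd (g i) := by
  ext n
  rw [coeff_rd, finsetSum_coeff, finsetSum_coeff, rs_sum _ _ fun i hi => h i hi n]
  exact Finset.sum_congr rfl fun i _ => (coeff_rd _ _).symm

theorem rd_natDegree_le (P : L[X]) : (rd P).natDegree ≤ P.natDegree := by
  refine natDegree_le_iff_coeff_eq_zero.2 fun n hn => ?_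
  rw [coeff_rd, coeff_eq_zero_of_natDegree_lt hn, rs_zero]

theorem rd_eq_zero_iff {P : L[X]} (hP : IntP P) : rd P = 0 ↔ ∀ j, ‖P.coeff j‖ < 1 := by
  constructor
  · intro h j
    rw [← rs_eq_zero_iff (hP j), ← coeff_rd, h, coeff_zero]
  · intro h
    ext n
    rw [coeff_rd, coeff_zero, rs_eq_zero_iff (hP n)]
    exact h n

theorem intP_comp {P Q : L[X]} (hP : IntP P) (hQ : IntP Q) : IntP (P.comp Q) := by
  rw [comp, eval₂_eq_sum_range]
  exact intP_sum fun i _ => intP_mul (intP_C (hP i)) (intP_pow hQ i)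

theorem rd_comp {P Q : L[X]} (hP : IntP P) (hQ : IntP Q) : rd (P.comp Q) = (rd P).comp (rd Q) := by
  have h1 : (rd P).comp (rd Q) =
      ∑ i ∈ range (P.natDegree + 1), C (rs (P.coeff i)) * rd Q ^ i := by
    rw [comp, eval₂_eq_sum_range' C (n := P.natDegree + 1)
      (Nat.lt_succ_of_le (rd_natDegree_le P))]
    exact Finset.sum_congr rfl fun i _ => by rw [coeff_rd]
  rw [h1, comp, eval₂_eq_sum_range, rd_sum]
  · refine Finset.sum_congr rfl fun i _ => ?_
    rw [rd_mul (intP_C (hP i)) (intP_pow hQ i), rd_C, rd_pow hQ]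
  · intro i _
    exact intP_mul (intP_C (hP i)) (intP_pow hQ i)

theorem rd_gg {q : ℕ} (hq2 : 2 ≤ q) {c : ℕ → L[X]} (hc : ∀ i, IntP (c i)) (n : ℕ) :
    rd (gg q c n) = gg q (fun i => rd (c i)) n := by
  induction n using Nat.strong_induction_on with
  | _ n ih =>
    rcases Nat.eq_zero_or_pos n with rfl | hn
    · rw [gg_zero, gg_zero, rd_one]
    · rw [gg_rec hq2 _ hn, gg_rec hq2 _ hn, rd_sum]
      · refine Finset.sum_congr rfl fun i _ => ?_
        split_ifs with h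
        · rw [rd_mul (hc i) (intP_gg hq2 hc _), ih _ (Nat.sub_lt hn (pow_pos (by omega) _))]
        · exact rd_zero
      · intro i _
        split_ifs with h
        · exact intP_mul (hc i) (intP_gg hq2 hc _)
        · exact intP_zero

/-- `‖P‖ = ‖u‖` for the Gauss norm -/
def Nrm (P : L[X]) (u : L) : Prop := u ≠ 0 ∧ IntP (C u⁻¹ * P) ∧ rd (C u⁻¹ * P) ≠ 0

theorem intP_smul_iff {P : L[X]} {u : L} (hu : u ≠ 0) :
    IntP (C u⁻¹ * P) ↔ ∀ j, ‖P.coeff j‖ ≤ ‖u‖ := by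
  have h0 : 0 < ‖u‖ := norm_pos_iff.2 hu
  refine forall_congr' fun j => ?_
  rw [coeff_C_mul, norm_mul, norm_inv, inv_mul_le_iff₀ h0, mul_one]

theorem rd_smul_eq_zero_iff {P : L[X]} {u : L} (hu : u ≠ 0) (h : IntP (C u⁻¹ * P)) :
    rd (C u⁻¹ * P) = 0 ↔ ∀ j, ‖P.coeff j‖ < ‖u‖ := by
  have h0 : 0 < ‖u‖ := norm_pos_iff.2 hu
  rw [rd_eq_zero_iff h]
  refine forall_congr' fun j => ?_
  rw [coeff_C_mul, norm_mul, norm_inv, inv_mul_lt_iff₀ h0, mul_one]

theorem nrm_iff {P : L[X]} {u : L} :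
    Nrm P u ↔ u ≠ 0 ∧ (∀ j, ‖P.coeff j‖ ≤ ‖u‖) ∧ ∃ j, ‖P.coeff j‖ = ‖u‖ := by
  constructor
  · rintro ⟨hu, h1, h2⟩
    have h3 := (intP_smul_iff hu).1 h1
    refine ⟨hu, h3, ?_⟩
    rw [Ne, rd_smul_eq_zero_iff hu h1] at h2
    push Not at h2
    obtain ⟨j, hj⟩ := h2
    exact ⟨j, le_antisymm (h3 j) hj⟩
  · rintro ⟨hu, h1, j, hj⟩
    have h3 := (intP_smul_iff hu).2 h1
    refine ⟨hu, h3, ?_⟩
    rw [Ne, rd_smul_eq_zero_iff hu h3]
    push Not
    exact ⟨j, hj.ge⟩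

theorem exists_nrm {P : L[X]} (hP : P ≠ 0) : ∃ u, Nrm P u := by
  obtain ⟨j, hj, hmax⟩ := Finset.exists_max_image P.support (fun j => ‖P.coeff j‖)
    (Polynomial.nonempty_support_iff.2 hP)
  refine ⟨P.coeff j, nrm_iff.2 ⟨mem_support_iff.1 hj, fun i => ?_, j, rfl⟩⟩
  by_cases hi : i ∈ P.support
  · exact hmax i hi
  · rw [notMem_support_iff.1 hi, norm_zero]
    exact norm_nonneg _

theorem Nrm.ne {P : L[X]} {u : L} (h : Nrm P u) : P ≠ 0 := by
  rintro rfl
  apply h.2.2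
  rw [mul_zero, rd_zero]

theorem Nrm.mul {P Q : L[X]} {u v : L} (hP : Nrm P u) (hQ : Nrm Q v) : Nrm (P * Q) (u * v) ∧
    rd (C (u * v)⁻¹ * (P * Q)) = rd (C u⁻¹ * P) * rd (C v⁻¹ * Q) := by
  have h1 : C (u * v)⁻¹ * (P * Q) = (C u⁻¹ * P) * (C v⁻¹ * Q) := by
    rw [mul_inv, C_mul]
    ring
  have h2 : rd (C (u * v)⁻¹ * (P * Q)) = rd (C u⁻¹ * P) * rd (C v⁻¹ * Q) := by
    rw [h1, rd_mul hP.2.1 hQ.2.1]
  refine ⟨⟨mul_ne_zero hP.1 hQ.1, ?_, ?_⟩, h2⟩
  · rw [h1]
    exact intP_mul hP.2.1 hQ.2.1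
  · rw [h2]
    exact mul_ne_zero hP.2.2 hQ.2.2

/-- divisibility by a power of a monic linear polynomial passes to the reduction -/
theorem rd_dvd {P : L[X]} (hP : IntP P) {a : L} (ha : ‖a‖ ≤ 1) {n : ℕ}
    (h : (X - C a) ^ n ∣ P) : (X - C (rs a)) ^ n ∣ rd P := by
  obtain ⟨Q, hQ⟩ := h
  have hl : IntP (X - C a) := intP_sub intP_X (intP_C ha)
  have hrl : rd (X - C a) = X - C (rs a) := by rw [rd_sub intP_X (intP_C ha), rd_X, rd_C]
  by_cases hQ0 : Q = 0
  · rw [hQ, hQ0, mul_zero, rd_zero]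
    exact dvd_zero _
  have hQint : IntP Q := by
    obtain ⟨u, hu⟩ := exists_nrm hQ0
    have hln : Nrm (X - C a) (1 : L) := by
      refine ⟨one_ne_zero, by rwa [inv_one, C_1, one_mul], ?_⟩
      rw [inv_one, C_1, one_mul, hrl]
      exact X_sub_C_ne_zero _
    have hpn : ∀ n : ℕ, Nrm ((X - C a) ^ n) (1 : L) := by
      intro n
      induction n with
      | zero =>
        rw [pow_zero]
        refine ⟨one_ne_zero, by rw [inv_one, C_1, one_mul]; exact intP_one, ?_⟩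
        rw [inv_one, C_1, one_mul, rd_one]
        exact one_ne_zero
      | succ n ih =>
        have := (ih.mul hln).1
        rwa [mul_one, ← pow_succ] at this
    have h1 := ((hpn n).mul hu).1
    rw [← hQ, one_mul] at h1
    obtain ⟨_, _, j, hj⟩ := nrm_iff.1 h1
    have h2 : ‖u‖ ≤ 1 := by
      rw [← hj]
      exact hP j
    obtain ⟨_, h3, _⟩ := nrm_iff.1 hu
    exact fun i => (h3 i).trans h2
  have hpow : IntP ((X - C a) ^ n) := intP_pow hl n
  rw [hQ, rd_mul hpow hQint, rd_pow hl, hrl]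
  exact dvd_mul_right _ _

end Res

end Pool.Agent.ZQ
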